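import Mathlib
import Pool.Agent.H1.CM.Stmt
import Pool.Agent.H1.CMX.Assembly

/-!
# Coarse moduli spaces of canonically polarized surfaces do not commute with reduction modulo 2

`k` is an algebraically closed field of characteristic `2`.  There is a smooth canonically
polarized surface `X₀` over `k` and a natural function on the flat proper families over Artinian
local rings in characteristic `2` with special fibre `X₀` which is not the restriction of a natural
function on all flat proper families over Artinian local rings with special fibre `X₀`.

By the theorem of Keel and Mori the natural functions form the complete local rings at `[X₀]` of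
the coarse moduli space `M_{𝔽₂} ⊗ k` of the stack over `𝔽₂` and of the coarse moduli space
`M ⊗ W(k)`, and the restriction map is the map induced by `φ₂`.  So `φ₂` is not an isomorphism.
-/

open CategoryTheory AlgebraicGeometry

namespace Pool.Agent.Results.MP_bceb84_ag.CoarseModuliMod2

open Pool.Agent.H1.CM

theorem result (k : Type) [Field k] [IsAlgClosed k] [CharP k 2] :
    ∃ (X₀ : Scheme.{0}) (s₀ : X₀ ⟶ Spec (CommRingCat.of k)), CanonicallyPolarized s₀ ∧
      ∃ F₂ : NaturalFunction s₀ (InChar 2),
        ¬ ∃ F : NaturalFunction s₀ (fun _ => True),
          ∀ (𝓧 : Family s₀) (h : InChar 2 𝓧), F.val 𝓧 trivial = F₂.val 𝓧 h :=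
  All.a_main2 k

end Pool.Agent.Results.MP_bceb84_ag.CoarseModuliMod2
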